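import Pool.Agent.TBP.StmtsC
import Pool.Agent.Helper95_TBP.EPA

set_option autoImplicit false

/-! Row EA2 of the squad TBP: the estimate of the Euler product with the exponent `r`
(the proof of row EPA, `Helper95_TBP/EPA.lean`, with a general `c ∈ [0, 2]` for `e - 1`). -/

namespace Pool.Agent.TBP.H43

open Finset
open Pool.Agent.TBP
open Pool.Agent.TBP.H95 (lw_anti two_pow_le_lw hh_small hh_le Kp Kp_nonneg sum_K sum_sq_le
  two_pow_card_le exp_one_sub_le)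

theorem term_le {c : ℝ} (hc0 : 0 ≤ c) (hc : c ≤ 2) {θ : ℝ} (h0 : 0 < θ) (h1 : θ < 1) {J p : ℕ} (hp : 2 ^ J < p) (hp2 : 2 ≤ p) :
    0 ≤ hh θ J p * (c / p + 40 / (p : ℝ) ^ 2) ∧
    hh θ J p * (c / p + 40 / (p : ℝ) ^ 2) ≤
      c * (1 / p) + 40 * ((p : ℝ) ^ 2)⁻¹ + 44 * (Kp J p * ((p : ℝ) ^ 2)⁻¹) := by
  obtain ⟨a1, a2⟩ := hh_le h0 h1 hp
  have hp' : (2 : ℝ) ≤ (p : ℝ) := by exact_mod_cast hp2
  have hp0 : (0 : ℝ) < (p : ℝ) := by linarith
  have hK := Kp_nonneg J p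
  have hnn : 0 ≤ c / p + 40 / (p : ℝ) ^ 2 := by positivity
  refine ⟨mul_nonneg a1 hnn, ?_⟩
  refine (mul_le_mul_of_nonneg_right a2 hnn).trans ?_
  set u := (p : ℝ)⁻¹ with hu
  have hu0 : 0 < u := inv_pos.2 hp0
  have hu2 : u ≤ 1 / 2 := by
    rw [hu, inv_eq_one_div]
    exact one_div_le_one_div_of_le (by norm_num) hp'
  have e1 : (1 + 2 * Kp J p / p) * (c / p + 40 / (p : ℝ) ^ 2) =
      c * u + 40 * u ^ 2 + (2 * c * Kp J p * u ^ 2 + 80 * Kp J p * u ^ 2 * u) := by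
    rw [hu]
    field_simp
    ring
  have e2 : c * (1 / p) + 40 * ((p : ℝ) ^ 2)⁻¹ + 44 * (Kp J p * ((p : ℝ) ^ 2)⁻¹) =
      c * u + 40 * u ^ 2 + 44 * (Kp J p * u ^ 2) := by
    rw [hu, one_div, inv_pow]
  rw [e1, e2]
  have hKu : 0 ≤ Kp J p * u ^ 2 := by positivity
  have i1 : 2 * c * Kp J p * u ^ 2 ≤ 4 * (Kp J p * u ^ 2) := by nlinarith
  have i2 : 80 * Kp J p * u ^ 2 * u ≤ 40 * (Kp J p * u ^ 2) := by nlinarith
  linarith

theorem big_le {c : ℝ} (hc0 : 0 ≤ c) (hc : c ≤ 2) {θ : ℝ} (h0 : 0 < θ) (h1 : θ < 1) {J j : ℕ} (hJ : 1 ≤ J) (hj : j ≤ J) (N : ℕ) :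
    ∏ p ∈ (Ioc (lw J j) N).filter Nat.Prime,
        (1 + hh θ J p * (c / p + 40 / (p : ℝ) ^ 2)) ≤
      Real.exp (c * ∑ p ∈ (Ioc (lw J j) N).filter Nat.Prime, (1 : ℝ) / p + 84) := by
  have hw := two_pow_le_lw hj
  have hJ2 : 2 ≤ 2 ^ J := by
    calc 2 = 2 ^ 1 := by norm_num
      _ ≤ 2 ^ J := Nat.pow_le_pow_right (by norm_num) hJ
  have ht : ∀ p ∈ (Ioc (lw J j) N).filter Nat.Prime, 2 ^ J < p ∧ 2 ≤ p := by
    intro p hp
    rw [Finset.mem_filter, Finset.mem_Ioc] at hp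
    omega
  have s1 : ∏ p ∈ (Ioc (lw J j) N).filter Nat.Prime,
        (1 + hh θ J p * (c / p + 40 / (p : ℝ) ^ 2)) ≤
      ∏ p ∈ (Ioc (lw J j) N).filter Nat.Prime,
        Real.exp (c * (1 / p) + 40 * ((p : ℝ) ^ 2)⁻¹ +
          44 * (Kp J p * ((p : ℝ) ^ 2)⁻¹)) := by
    apply Finset.prod_le_prod
    · intro p hp
      obtain ⟨b1, b2⟩ := ht p hp
      have := (term_le hc0 hc h0 h1 b1 b2).1
      linarith
    · intro p hp
      obtain ⟨b1, b2⟩ := ht p hp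
      have c2 := (term_le hc0 hc h0 h1 b1 b2).2
      have c3 := Real.add_one_le_exp (c * (1 / p) + 40 * ((p : ℝ) ^ 2)⁻¹ +
          44 * (Kp J p * ((p : ℝ) ^ 2)⁻¹))
      linarith
  refine s1.trans ?_
  rw [← Real.exp_sum]
  apply Real.exp_le_exp.2
  rw [Finset.sum_add_distrib, Finset.sum_add_distrib, ← Finset.mul_sum, ← Finset.mul_sum,
    ← Finset.mul_sum]
  have i1 := sum_sq_le (lw J j) N (by omega)
  have i2 := sum_K J ((Ioc (lw J j) N).filter Nat.Prime)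
  linarith

theorem big_fin {c : ℝ} (hc0 : 0 ≤ c) (hc : c ≤ 2) (M : ℝ) (hM : 0 ≤ M)
    (mer : ∀ w x : ℕ, 2 ≤ w → w ≤ x →
      ∑ p ∈ (Ioc w x).filter Nat.Prime, (1 : ℝ) / p ≤ Real.log (Real.log x / Real.log w) + M)
    {θ : ℝ} (h0 : 0 < θ) (h1 : θ < 1) {a J j N : ℕ} (ha : 1 ≤ a) (hJ : 1 ≤ J) (hj : j ≤ J)
    (hN : N ≤ (lw J 0) ^ (4 * a)) :
    ∏ p ∈ (Ioc (lw J j) N).filter Nat.Prime,
        (1 + hh θ J p * (c / p + 40 / (p : ℝ) ^ 2)) ≤
      Real.exp (2 * M + 84) * (4 * (a : ℝ) * 2 ^ j) ^ c := by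
  have haR : (1 : ℝ) ≤ (a : ℝ) := by exact_mod_cast ha
  have h2j : (1 : ℝ) ≤ 2 ^ j := one_le_pow₀ (by norm_num)
  have hbase : (1 : ℝ) ≤ 4 * (a : ℝ) * 2 ^ j := by nlinarith
  rcases le_or_gt (lw J j) N with hle | hlt
  · have hw := two_pow_le_lw hj
    have hJ2 : 2 ≤ 2 ^ J := by
      calc 2 = 2 ^ 1 := by norm_num
        _ ≤ 2 ^ J := Nat.pow_le_pow_right (by norm_num) hJ
    refine (big_le hc0 hc h0 h1 hJ hj N).trans ?_
    have hm := mer (lw J j) N (by omega) hle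
    have hlog2 : 0 < Real.log 2 := Real.log_pos (by norm_num)
    have hlw : Real.log ((lw J j : ℕ) : ℝ) = (J : ℝ) * 2 ^ (J - j) * Real.log 2 := by
      unfold lw
      push_cast
      rw [Real.log_pow]
      push_cast
      ring
    have hlw0 : Real.log ((lw J 0 : ℕ) : ℝ) = (J : ℝ) * 2 ^ J * Real.log 2 := by
      unfold lw
      push_cast
      rw [Real.log_pow, Nat.sub_zero]
      push_cast
      ring
    have hJR : (1 : ℝ) ≤ (J : ℝ) := by exact_mod_cast hJ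
    have hNpos : (0 : ℝ) < (N : ℝ) := by
      have : 0 < N := by omega
      exact_mod_cast this
    have hlogN : Real.log N ≤ 4 * (a : ℝ) * ((J : ℝ) * 2 ^ J * Real.log 2) := by
      have h2 : (N : ℝ) ≤ ((lw J 0 : ℕ) : ℝ) ^ (4 * a) := by exact_mod_cast hN
      have h3 := Real.log_le_log hNpos h2
      rw [Real.log_pow, hlw0] at h3
      push_cast at h3
      exact h3
    have hNgt : (1 : ℝ) < (N : ℝ) := by
      have : 1 < N := by omega
      exact_mod_cast this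
    have hlogNpos : 0 < Real.log N := Real.log_pos hNgt
    have hlwpos : 0 < Real.log ((lw J j : ℕ) : ℝ) := by
      rw [hlw]
      positivity
    have hq : Real.log N / Real.log ((lw J j : ℕ) : ℝ) ≤ 4 * (a : ℝ) * 2 ^ j := by
      rw [div_le_iff₀ hlwpos, hlw]
      refine hlogN.trans (le_of_eq ?_)
      have e : (2 : ℝ) ^ J = 2 ^ j * 2 ^ (J - j) := by
        rw [← pow_add]
        congr 1
        omega
      rw [e]
      ring
    have hqpos : 0 < Real.log N / Real.log ((lw J j : ℕ) : ℝ) := div_pos hlogNpos hlwpos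
    have hlogq : Real.log (Real.log N / Real.log ((lw J j : ℕ) : ℝ)) ≤
        Real.log (4 * (a : ℝ) * 2 ^ j) := Real.log_le_log hqpos hq
    have hfin : c * ∑ p ∈ (Ioc (lw J j) N).filter Nat.Prime, (1 : ℝ) / p + 84 ≤
        Real.log (4 * (a : ℝ) * 2 ^ j) * c + (2 * M + 84) := by
      have g1 : c * ∑ p ∈ (Ioc (lw J j) N).filter Nat.Prime, (1 : ℝ) / p ≤
          c * (Real.log (4 * (a : ℝ) * 2 ^ j) + M) :=
        mul_le_mul_of_nonneg_left (by linarith) hc0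
      have g2 : c * M ≤ 2 * M := mul_le_mul_of_nonneg_right hc hM
      nlinarith
    refine (Real.exp_le_exp.2 hfin).trans (le_of_eq ?_)
    rw [Real.exp_add, ← Real.rpow_def_of_pos (by linarith), mul_comm]
  · rw [Finset.Ioc_eq_empty (by omega), Finset.filter_empty, Finset.prod_empty]
    have g1 : (1 : ℝ) ≤ Real.exp (2 * M + 84) := Real.one_le_exp (by linarith)
    have g2 : (1 : ℝ) ≤ (4 * (a : ℝ) * 2 ^ j) ^ c :=
      Real.one_le_rpow hbase hc0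
    nlinarith

theorem small_le {c : ℝ} (hc0 : 0 ≤ c) (hc : c ≤ 2) {θ : ℝ} {J k : ℕ} (hk : 1 ≤ k) (S : Finset ℕ)
    (hS : ∀ p ∈ S, p.Prime ∧ p ≤ 2 ^ J ∧ p ∣ k) :
    ∏ p ∈ S, (1 + hh θ J p * (c / p + 40 / (p : ℝ) ^ 2)) ≤
      (k.divisors.card : ℝ) ^ 4 := by
  have h1 : ∏ p ∈ S, (1 + hh θ J p * (c / p + 40 / (p : ℝ) ^ 2)) ≤
      ∏ _p ∈ S, (16 : ℝ) := by
    apply Finset.prod_le_prod
    · intro p hp
      rw [hh_small (hS p hp).2.1, one_mul]
      positivity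
    · intro p hp
      rw [hh_small (hS p hp).2.1, one_mul]
      have hp2 : (2 : ℝ) ≤ (p : ℝ) := by exact_mod_cast (hS p hp).1.two_le
      have g1 : c / p ≤ 1 := by
        rw [div_le_one (by linarith)]
        linarith
      have g2 : 40 / (p : ℝ) ^ 2 ≤ 10 := by
        rw [div_le_iff₀ (by positivity)]
        nlinarith
      linarith
  rw [Finset.prod_const] at h1
  have h2 : S ⊆ k.primeFactors := by
    intro p hp
    rw [Nat.mem_primeFactors]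
    exact ⟨(hS p hp).1, (hS p hp).2.2, by omega⟩
  have h3 : (16 : ℝ) ^ S.card ≤ (16 : ℝ) ^ k.primeFactors.card :=
    pow_le_pow_right₀ (by norm_num) (Finset.card_le_card h2)
  have h4 : (16 : ℝ) ^ k.primeFactors.card = ((2 : ℝ) ^ k.primeFactors.card) ^ 4 := by
    rw [← pow_mul, mul_comm, pow_mul]
    norm_num
  have h5 : (2 : ℝ) ^ k.primeFactors.card ≤ (k.divisors.card : ℝ) := by
    exact_mod_cast two_pow_card_le hk
  have h6 : ((2 : ℝ) ^ k.primeFactors.card) ^ 4 ≤ (k.divisors.card : ℝ) ^ 4 :=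
    pow_le_pow_left₀ (by positivity) h5 4
  linarith

theorem ea2 (mer : MerStmt) : Ea2Stmt := by
  obtain ⟨M, hM, mer⟩ := mer
  refine ⟨Real.exp (2 * M + 84), Real.one_le_exp (by linarith), ?_⟩
  intro r θ a J j N k hr hr2 h0 h1 ha hJ hj hN hk
  have hc0 : (0 : ℝ) ≤ (2 : ℝ) ^ r - 1 := by
    have := Real.one_le_rpow (show (1 : ℝ) ≤ 2 by norm_num) hr.le
    linarith
  have hc : (2 : ℝ) ^ r - 1 ≤ 2 := by
    have h2 : (2 : ℝ) ^ r ≤ (2 : ℝ) ^ rho :=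
      Real.rpow_le_rpow_of_exponent_le (by norm_num) hr2
    have h3 : (2 : ℝ) ^ rho = Real.exp 1 := by
      unfold rho
      rw [Real.rpow_def_of_pos (by norm_num)]
      congr 1
      have : Real.log 2 ≠ 0 := (Real.log_pos (by norm_num)).ne'
      field_simp
    have h4 := exp_one_sub_le
    linarith
  generalize (2 : ℝ) ^ r - 1 = c at hc0 hc ⊢
  rw [← Finset.prod_filter_mul_prod_filter_not (PP J j N k) (fun p => lw J j < p)]
  have e1 : (PP J j N k).filter (fun p => lw J j < p) = (Ioc (lw J j) N).filter Nat.Prime := by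
    ext p
    unfold PP
    simp only [Finset.mem_filter, Finset.mem_Icc, Finset.mem_Ioc]
    constructor
    · rintro ⟨⟨⟨_, b⟩, c, _⟩, d⟩
      exact ⟨⟨d, b⟩, c⟩
    · rintro ⟨⟨d, b⟩, c⟩
      exact ⟨⟨⟨by omega, b⟩, c, Or.inl d⟩, d⟩
  rw [e1]
  have s1 := big_fin hc0 hc M hM mer h0 h1 ha hJ hj hN
  have s2 := small_le hc0 hc (θ := θ) (J := J) hk ((PP J j N k).filter (fun p => ¬ lw J j < p)) (by
    intro p hp
    unfold PP at hp
    simp only [Finset.mem_filter, Finset.mem_Icc] at hp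
    obtain ⟨⟨⟨_, _⟩, c, d⟩, f⟩ := hp
    rcases d with d | ⟨d1, d2⟩
    · exact absurd d f
    · exact ⟨c, d1, dvd_trans (dvd_pow_self p (by omega)) d2⟩)
  apply mul_le_mul s1 s2
  · apply Finset.prod_nonneg
    intro p hp
    unfold PP at hp
    simp only [Finset.mem_filter, Finset.mem_Icc] at hp
    obtain ⟨⟨⟨_, _⟩, c, d⟩, f⟩ := hp
    rcases d with d | ⟨d1, d2⟩
    · exact absurd d f
    · rw [hh_small d1, one_mul]
      positivity
  · positivity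

end Pool.Agent.TBP.H43
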